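import Mathlib

open Set MeasureTheory Filter Topology Pointwise Function
open scoped ENNReal

namespace Pool.Agent.H.MP_3c9300_gt

theorem bm_one {A B C : Set ℝ} (hA : MeasurableSet A) (hB : MeasurableSet B) (nA : A.Nonempty)
    (nB : B.Nonempty) (h : ∀ a ∈ A, ∀ b ∈ B, a + b ∈ C) : volume A + volume B ≤ volume C := by
  have key : ∀ K L : Set ℝ, K ⊆ A → L ⊆ B → IsCompact K → IsCompact L → K.Nonempty → L.Nonempty →
      volume K + volume L ≤ volume C := by
    intro K L hK hL cK cL nK nL
    obtain ⟨a, ha, ha'⟩ := cK.exists_isGreatest nK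
    obtain ⟨b, hb, hb'⟩ := cL.exists_isLeast nL
    rw [← measure_preimage_add_right volume (-b) K, ← measure_sdiff_null (s := L)
      (measure_singleton b), ← measure_preimage_add_right volume (-a) (L \ {b}),
      ← measure_union _ ((cL.measurableSet.diff (measurableSet_singleton b)).preimage (by fun_prop))]
    · refine measure_mono (union_subset (fun x hx => ?_) fun x hx => ?_)
      · simpa using h _ (hK hx) b (hL hb)
      · simpa using h a (hK ha) _ (hL hx.1)
    · refine disjoint_left.2 fun x h1 h2 => h2.2 ?_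
      have := ha' h1
      have := hb' h2.1
      simp only [mem_singleton_iff] at *
      linarith
  obtain ⟨a, ha⟩ := nA
  obtain ⟨b, hb⟩ := nB
  rw [hA.measure_eq_iSup_isCompact, hB.measure_eq_iSup_isCompact]
  have e : ∀ S : Set ℝ, ⨆ K ⊆ S, ⨆ (_ : IsCompact K), volume K =
      ⨆ K : {K : Set ℝ // K ⊆ S ∧ IsCompact K}, volume K.1 := fun S => by
    simp [iSup_subtype, iSup_and]
  rw [e, e]
  have : ∀ S : Set ℝ, Nonempty {K : Set ℝ // K ⊆ S ∧ IsCompact K} := fun S => ⟨⟨∅, by simp⟩⟩
  refine ENNReal.iSup_add_iSup_le fun K L => le_trans ?_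
    (key (insert a K) (insert b L) (insert_subset ha K.2.1) (insert_subset hb L.2.1)
      (K.2.2.insert a) (L.2.2.insert b) (by simp) (by simp))
  gcongr <;> exact subset_insert _ _

theorem layer {X : Type} [MeasurableSpace X] (μ : Measure X) [SFinite μ] {f : X → ENNReal}
    (hf : Measurable f) :
    ∫⁻ x, min (f x) 1 ∂μ = ∫⁻ t in Ioo (0 : ℝ) 1, μ {x | ENNReal.ofReal t < f x} := by
  have hm : MeasurableSet {p : ℝ × X | ENNReal.ofReal p.1 < f p.2} :=
    measurableSet_lt (by fun_prop) (by fun_prop)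
  have h1 := Measure.prod_apply (μ := volume.restrict (Ioo (0 : ℝ) 1)) (ν := μ) hm
  rw [Measure.prod_apply_symm hm] at h1
  refine Eq.trans (lintegral_congr fun x => ?_) h1
  rw [Measure.restrict_apply' measurableSet_Ioo]
  rcases le_total (f x) 1 with h | h
  · have hx : f x ≠ ⊤ := ne_top_of_le_ne_top ENNReal.one_ne_top h
    have : (fun t => (t, x)) ⁻¹' {p : ℝ × X | ENNReal.ofReal p.1 < f p.2} ∩ Ioo 0 1 =
        Ioo 0 (f x).toReal := by
      ext t
      simp only [mem_inter_iff, mem_preimage, mem_ofPred_eq, mem_Ioo]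
      refine ⟨fun H => ⟨H.2.1, (ENNReal.ofReal_lt_iff_lt_toReal H.2.1.le hx).1 H.1⟩, fun H =>
        ⟨(ENNReal.ofReal_lt_iff_lt_toReal H.1.le hx).2 H.2, H.1, H.2.trans_le ?_⟩⟩
      simpa using ENNReal.toReal_mono ENNReal.one_ne_top h
    rw [this, min_eq_left h, Real.volume_Ioo, sub_zero, ENNReal.ofReal_toReal hx]
  · have : (fun t => (t, x)) ⁻¹' {p : ℝ × X | ENNReal.ofReal p.1 < f p.2} ∩ Ioo 0 1 = Ioo 0 1 :=
      inter_eq_right.2 fun t ht => (ENNReal.ofReal_lt_one.2 ht.2).trans_le h
    rw [min_eq_right h, this]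
    simp

/-- the Prekopa-Leindler property of a measure with respect to a mean -/
def PL {X : Type} [MeasurableSpace X] (μ : Measure X) (m : X → X → X) : Prop :=
  ∀ f g h : X → ENNReal, Measurable f → Measurable g → Measurable h →
    (∀ x y, f x * g y ≤ h (m x y) ^ 2) → (∫⁻ x, f x ∂μ) * ∫⁻ x, g x ∂μ ≤ (∫⁻ x, h x ∂μ) ^ 2


variable {J : Type*}

lemma vol_smul (c : ℝ) (hc : 0 < c) (A : Set ℝ) :
    volume (c • A) = ENNReal.ofReal c * volume A := by
  rw [Measure.addHaar_smul_of_nonneg _ hc.le]; simp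

lemma bmK (S : Finset J) (c : J → ℝ) (hc : ∀ j, 0 < c j) (K : J → Set ℝ)
    (h1 : ∀ j, IsCompact (K j)) (h2 : ∀ j, (K j).Nonempty) :
    IsCompact (∑ j ∈ S, c j • K j) ∧ (∑ j ∈ S, c j • K j).Nonempty ∧
      ∑ j ∈ S, ENNReal.ofReal (c j) * volume (K j) ≤ volume (∑ j ∈ S, c j • K j) := by
  classical
  induction S using Finset.induction with
  | empty => simp
  | insert j S hj ih =>
    rw [Finset.sum_insert hj, Finset.sum_insert hj]
    have a := (h1 j).smul (c j)
    refine ⟨a.add ih.1, (h2 j).smul_set.add ih.2.1, ?_⟩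
    rw [← vol_smul _ (hc j)]
    exact (add_le_add le_rfl ih.2.2).trans (bm_one a.measurableSet ih.1.measurableSet
      (h2 j).smul_set ih.2.1 fun x hx y hy => add_mem_add hx hy)

lemma bmJ (S : Finset J) (c : J → ℝ) (hc : ∀ j, 0 < c j) (A : J → Set ℝ) (C : Set ℝ)
    (h1 : ∀ j, MeasurableSet (A j)) (h2 : ∀ j, (A j).Nonempty)
    (H : ∀ t : J → ℝ, (∀ j, t j ∈ A j) → ∑ j ∈ S, c j * t j ∈ C) :
    ∑ j ∈ S, ENNReal.ofReal (c j) * volume (A j) ≤ volume C := by
  classical
  choose p hp using h2
  have main : ∀ r : J → ℝ≥0∞, (∀ j, r j = 0 ∨ r j < volume (A j)) →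
      ∑ j ∈ S, ENNReal.ofReal (c j) * r j ≤ volume C := by
    intro r hr
    have : ∀ j, ∃ K ⊆ A j, IsCompact K ∧ K.Nonempty ∧ r j ≤ volume K := by
      intro j
      rcases hr j with h | h
      · exact ⟨{p j}, by simpa using hp j, isCompact_singleton, by simp, by simp [h]⟩
      · obtain ⟨K, k1, k2, k3⟩ := (h1 j).exists_lt_isCompact h
        exact ⟨K, k1, k2, nonempty_of_measure_ne_zero (ne_zero_of_lt k3), k3.le⟩
    choose K k1 k2 k3 k4 using this
    refine (Finset.sum_le_sum fun j _ => mul_le_mul_right (k4 j) _).trans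
      ((bmK S c hc K k2 k3).2.2.trans (measure_mono fun x hx => ?_))
    obtain ⟨g, hg, rfl⟩ := (Set.mem_finsetSum _ _ _).1 hx
    have : ∀ j, ∃ t ∈ A j, j ∈ S → g j = c j * t := by
      intro j
      by_cases hj : j ∈ S
      · obtain ⟨t, ht, e⟩ := hg hj
        exact ⟨t, k1 j ht, fun _ => e.symm⟩
      · exact ⟨p j, hp j, fun h => absurd h hj⟩
    choose t t1 t2 using this
    rw [Finset.sum_congr rfl t2]
    exact H t t1
  by_cases hf : ∀ j ∈ S, volume (A j) ≠ ⊤
  · apply ENNReal.le_of_forall_lt_one_mul_le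
    intro a ha
    have := main (fun j => if j ∈ S then a * volume (A j) else 0) fun j => by
      by_cases hj : j ∈ S
      · by_cases h0 : volume (A j) = 0
        · left; simp [h0]
        · right
          rw [if_pos hj]
          nth_rewrite 2 [← one_mul (volume (A j))]
          exact ENNReal.mul_lt_mul_left h0 (hf j hj) ha
      · left; simp [hj]
    refine le_of_eq_of_le ?_ this
    rw [Finset.mul_sum]
    exact Finset.sum_congr rfl fun j hj => by rw [if_pos hj]; ring
  · push Not at hf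
    obtain ⟨i, hi, h⟩ := hf
    have : volume C = ⊤ := by
      apply ENNReal.eq_top_of_forall_nnreal_le
      intro x
      have c0 : ENNReal.ofReal (c i) ≠ 0 := by simpa using hc i
      have := main (Pi.single i (x / ENNReal.ofReal (c i))) fun j => by
        by_cases hj : j = i
        · right; subst hj; rw [h, Pi.single_eq_same]
          exact ENNReal.div_lt_top (by simp) c0
        · left; simp [hj]
      refine le_trans ?_ ((Finset.single_le_sum (fun _ _ => zero_le) hi).trans this)
      rw [Pi.single_eq_same, ENNReal.mul_div_cancel c0 (by simp)]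
    simp [this]

lemma core (S : Finset J) (hS : S.Nonempty) (c : J → ℝ) (hc : ∀ j, 0 < c j)
    (F : J → ℝ → ℝ≥0∞) (hF : ∀ j, Measurable (F j)) (F1 : ∀ j ∈ S, ⨆ x, F j x = 1)
    (h : ℝ → ℝ≥0∞) (hh : Measurable h)
    (H : ∀ (t : J → ℝ) (τ : ℝ≥0∞), (∀ j ∈ S, τ ≤ F j (t j)) → τ ≤ h (∑ j ∈ S, c j * t j)) :
    ∑ j ∈ S, ENNReal.ofReal (c j) * ∫⁻ x, F j x ≤ ∫⁻ x, h x := by
  classical
  refine le_trans ?_ (lintegral_mono fun x => min_le_left (h x) 1)
  have an : ∀ j, Antitone fun t : ℝ => volume {x | ENNReal.ofReal t < F j x} :=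
    fun j s t hst => measure_mono fun x hx => (ENNReal.ofReal_le_ofReal hst).trans_lt hx
  have e : ∀ j ∈ S, ENNReal.ofReal (c j) * ∫⁻ x, F j x =
      ∫⁻ t in Ioo (0 : ℝ) 1, ENNReal.ofReal (c j) * volume {x | ENNReal.ofReal t < F j x} := by
    intro j hj
    rw [lintegral_const_mul _ (an j).measurable, ← layer _ (hF j)]
    congr 1
    exact lintegral_congr fun x => (min_eq_left (F1 j hj ▸ le_iSup (F j) x)).symm
  rw [Finset.sum_congr rfl e, layer _ hh, ← lintegral_finsetSum _ fun j _ =>
    (an j).measurable.const_mul _]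
  refine setLIntegral_mono' measurableSet_Ioo fun t ht => ?_
  have := bmJ S c hc (fun j => if j ∈ S then {x | ENNReal.ofReal t < F j x} else univ)
    {x | ENNReal.ofReal t < h x} (fun j => by
      split_ifs
      · exact measurableSet_lt measurable_const (hF j)
      · exact .univ) (fun j => by
      split_ifs with hj
      · exact (lt_iSup_iff (f := F j)).1 (F1 j hj ▸ ENNReal.ofReal_lt_one.2 ht.2)
      · exact univ_nonempty) fun u hu => by
      obtain ⟨i, hi, hm⟩ := S.exists_min_image (fun j => F j (u j)) hS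
      have := hu i
      rw [if_pos hi] at this
      exact lt_of_lt_of_le this (H u _ hm)
  refine le_of_eq_of_le (Finset.sum_congr rfl fun j hj => ?_) this
  rw [if_pos hj]

lemma prod_pow (S : Finset J) (c : J → ℝ) (hc : ∀ j, 0 < c j) (x : ℝ≥0∞) :
    ∏ j ∈ S, x ^ c j = x ^ ∑ j ∈ S, c j := by
  classical
  induction S using Finset.induction with
  | empty => simp
  | insert j S hj ih =>
    rw [Finset.prod_insert hj, Finset.sum_insert hj, ih, ENNReal.rpow_add_of_nonneg _ _ (hc j).le
      (Finset.sum_nonneg fun j _ => (hc j).le)]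

lemma amgmJ (S : Finset J) (c : J → ℝ) (hc : ∀ j, 0 < c j) (c1 : ∑ j ∈ S, c j = 1)
    (z : J → ℝ≥0∞) : ∏ j ∈ S, z j ^ c j ≤ ∑ j ∈ S, ENNReal.ofReal (c j) * z j := by
  by_cases hf : ∀ j ∈ S, z j ≠ ⊤
  · have := Real.geom_mean_le_arith_mean_weighted S c (fun j => (z j).toReal)
      (fun j _ => (hc j).le) c1 fun j _ => ENNReal.toReal_nonneg
    have := ENNReal.ofReal_le_ofReal this
    rw [ENNReal.ofReal_prod_of_nonneg fun j _ => by positivity,
      ENNReal.ofReal_sum_of_nonneg fun j _ => mul_nonneg (hc j).le ENNReal.toReal_nonneg] at this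
    refine le_of_eq_of_le (Finset.prod_congr rfl fun j hj => ?_) (this.trans_eq
      (Finset.sum_congr rfl fun j hj => ?_))
    · rw [← ENNReal.ofReal_rpow_of_nonneg ENNReal.toReal_nonneg (hc j).le,
        ENNReal.ofReal_toReal (hf j hj)]
    · rw [ENNReal.ofReal_mul (hc j).le, ENNReal.ofReal_toReal (hf j hj)]
  · push Not at hf
    obtain ⟨i, hi, h⟩ := hf
    refine le_trans ?_ (Finset.single_le_sum (fun _ _ => zero_le) hi)
    rw [h, ENNReal.mul_top (by simpa using hc i)]
    exact le_top

lemma prod_sup (S : Finset J) (a : J → ℕ → ℝ≥0∞) (ha : ∀ j, Monotone (a j)) :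
    ∏ j ∈ S, ⨆ k, a j k ≤ ⨆ k, ∏ j ∈ S, a j k := by
  classical
  induction S using Finset.induction with
  | empty => simp
  | insert j S hj ih =>
    simp only [Finset.prod_insert hj]
    refine (mul_le_mul_right ih _).trans ?_
    rw [ENNReal.iSup_mul]
    refine iSup_le fun k => ?_
    rw [ENNReal.mul_iSup]
    refine iSup_le fun l => le_iSup_of_le (max k l) (mul_le_mul' (ha j (le_max_left _ _))
      (Finset.prod_le_prod' fun i _ => ha i (le_max_right _ _)))

lemma plJ (S : Finset J) (c : J → ℝ) (hc : ∀ j, 0 < c j) (c1 : ∑ j ∈ S, c j = 1)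
    (F : J → ℝ → ℝ≥0∞) (hF : ∀ j, Measurable (F j)) (h : ℝ → ℝ≥0∞) (hh : Measurable h)
    (H : ∀ t : J → ℝ, ∏ j ∈ S, F j (t j) ^ c j ≤ h (∑ j ∈ S, c j * t j)) :
    ∏ j ∈ S, (∫⁻ x, F j x) ^ c j ≤ ∫⁻ x, h x := by
  have hS : S.Nonempty := Finset.nonempty_of_sum_ne_zero (by rw [c1]; exact one_ne_zero)
  have bd : ∀ F : J → ℝ → ℝ≥0∞, (∀ j, Measurable (F j)) → (∀ j, ⨆ x, F j x ≠ ⊤) →
      (∀ t : J → ℝ, ∏ j ∈ S, F j (t j) ^ c j ≤ h (∑ j ∈ S, c j * t j)) →
      ∏ j ∈ S, (∫⁻ x, F j x) ^ c j ≤ ∫⁻ x, h x := by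
    intro F hF fin H
    by_cases f0 : ∃ j ∈ S, ⨆ x, F j x = 0
    · obtain ⟨j, hj, h0⟩ := f0
      rw [Finset.prod_eq_zero hj (by simp [ENNReal.iSup_eq_zero.1 h0, hc j])]
      exact zero_le
    push Not at f0
    set A : J → ℝ≥0∞ := fun j => ⨆ x, F j x with hA
    set P := ∏ j ∈ S, (A j)⁻¹ ^ c j with hP
    have P0 : P ≠ 0 := Finset.prod_ne_zero_iff.2 fun j _ => by
      rw [Ne, ENNReal.rpow_eq_zero_iff_of_pos (hc j)]; simpa using fin j
    have P1 : P ≠ ⊤ := ENNReal.prod_ne_top fun j hj =>
      ENNReal.rpow_ne_top_of_nonneg (hc j).le (ENNReal.inv_ne_top.2 (f0 j hj))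
    have := core S hS c hc (fun j x => (A j)⁻¹ * F j x) (fun j => (hF j).const_mul _)
      (fun j hj => by rw [← ENNReal.mul_iSup, ENNReal.inv_mul_cancel (f0 j hj) (fin j)])
      (fun x => P * h x) (hh.const_mul _) fun t τ hτ => by
        refine le_trans ?_ (mul_le_mul_right (H t) P)
        rw [hP, ← Finset.prod_mul_distrib, ← ENNReal.rpow_one τ, ← c1, ← prod_pow S c hc]
        refine Finset.prod_le_prod' fun j hj => ?_
        rw [← ENNReal.mul_rpow_of_nonneg _ _ (hc j).le]
        exact ENNReal.rpow_le_rpow (hτ j hj) (hc j).le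
    have := (amgmJ S c hc c1 _).trans this
    simp only [lintegral_const_mul _ (hF _), lintegral_const_mul _ hh,
      ENNReal.mul_rpow_of_nonneg _ _ (hc _).le, Finset.prod_mul_distrib] at this
    exact (ENNReal.mul_le_mul_iff_right P0 P1).1 this
  have tr : ∀ j, (∫⁻ x, F j x) ^ c j = ⨆ k : ℕ, (∫⁻ x, min (F j x) k) ^ c j := fun j => by
    have : ∫⁻ x, F j x = ⨆ k : ℕ, ∫⁻ x, min (F j x) k := by
      rw [← lintegral_iSup (f := fun (k : ℕ) x => min (F j x) k)
        (fun k => (hF j).min measurable_const)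
        fun a b hab x => min_le_min_left _ (by exact_mod_cast hab)]
      refine lintegral_congr fun x => ?_
      rw [← inf_iSup_eq, ENNReal.iSup_natCast, inf_top_eq]
    rw [this]
    exact (ENNReal.orderIsoRpow (c j) (hc j)).map_iSup _
  simp only [tr]
  refine (prod_sup S (fun j k => (∫⁻ x, min (F j x) k) ^ c j) fun j a b hab =>
    ENNReal.rpow_le_rpow (lintegral_mono fun x =>
    min_le_min_left _ (by exact_mod_cast hab)) (hc j).le).trans (iSup_le fun k => ?_)
  exact bd (fun j x => min (F j x) k) (fun j => (hF j).min measurable_const)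
    (fun j => ne_top_of_le_ne_top (ENNReal.natCast_ne_top k) (iSup_le fun x => min_le_right _ _))
    fun t => (Finset.prod_le_prod' fun j _ =>
      ENNReal.rpow_le_rpow (min_le_left _ _) (hc j).le).trans (H t)

theorem rbl {ι : Type*} [DecidableEq ι] [Fintype J] (c : J → ℝ) (hc : ∀ j, 0 < c j)
    (f : J → (ι → ℝ) → ℝ≥0∞) (hf : ∀ j, Measurable (f j)) (h : (ι → ℝ) → ℝ≥0∞)
    (hh : Measurable h) (T : Finset ι) : ∀ (τ : J → Finset ι), (∀ j, τ j ⊆ T) →
    (∀ i ∈ T, ∑ j with i ∈ τ j, c j = 1) → ∀ (a : J → ι → ℝ) (b : ι → ℝ),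
    (∀ (x : J → ι → ℝ) (z : ι → ℝ), (∀ j, ∀ i ∉ τ j, x j i = a j i) → (∀ i ∉ T, z i = b i) →
      (∀ i ∈ T, z i = ∑ j with i ∈ τ j, c j * x j i) → ∏ j, f j (x j) ^ c j ≤ h z) →
    ∏ j, (lmarginal (fun _ => volume) (τ j) (f j) (a j)) ^ c j ≤
      lmarginal (fun _ => volume) T h b := by
  induction T using Finset.induction with
  | empty =>
    intro τ h1 _ a b H
    simp only [Finset.subset_empty.1 (h1 _), lmarginal_empty]
    exact H a b (fun _ _ _ => rfl) (fun _ _ => rfl) (by simp)
  | insert i T hi ih =>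
    intro τ h1 h2 a b H
    rw [lmarginal_insert _ hh hi, ← Finset.prod_filter_mul_prod_filter_not _ fun j => i ∈ τ j]
    set P := ∏ j with ¬ i ∈ τ j, (lmarginal (fun _ => volume) (τ j) (f j) (a j)) ^ c j with hP
    have c1 := h2 i (Finset.mem_insert_self _ _)
    have mF : ∀ j, Measurable fun t : ℝ =>
        lmarginal (fun _ => volume) ((τ j).erase i) (f j) (update (a j) i t) :=
      fun j => ((hf j).lmarginal _).comp (measurable_update _)
    have := plJ _ c hc c1
      (fun j t => P * lmarginal (fun _ => volume) ((τ j).erase i) (f j) (update (a j) i t))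
      (fun j => (mF j).const_mul _) (fun t => lmarginal (fun _ => volume) T h (update b i t))
      ((hh.lmarginal _).comp (measurable_update _)) fun t => by
        have := ih (fun j => (τ j).erase i)
          (fun j => Finset.subset_insert_iff.1 (h1 j))
          (fun k hk => by
            rw [← h2 k (Finset.mem_insert_of_mem hk)]
            refine Finset.sum_congr (Finset.filter_congr fun j _ => ?_) fun _ _ => rfl
            simp [ne_of_mem_of_not_mem hk hi])
          (fun j => if i ∈ τ j then update (a j) i (t j) else a j)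
          (update b i (∑ j with i ∈ τ j, c j * t j)) fun x z x1 z1 z2 => H x z
            (fun j k hk => by
              rw [x1 j k (by simp [hk])]
              split_ifs with hj
              · exact update_of_ne (ne_of_mem_of_not_mem hj hk).symm _ _
              · rfl)
            (fun k hk => by
              rw [Finset.mem_insert, not_or] at hk
              rw [z1 k hk.2, update_of_ne hk.1])
            (fun k hk => by
              rcases Finset.mem_insert.1 hk with rfl | hk
              · rw [z1 k hi, update_self]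
                refine Finset.sum_congr rfl fun j hj => ?_
                rw [x1 j k (by simp), if_pos (Finset.mem_filter.1 hj).2, update_self]
              · rw [z2 k hk]
                refine Finset.sum_congr (Finset.filter_congr fun j _ => ?_) fun _ _ => rfl
                simp [ne_of_mem_of_not_mem hk hi])
        refine le_of_eq_of_le ?_ this
        simp only [ENNReal.mul_rpow_of_nonneg _ _ (hc _).le, Finset.prod_mul_distrib]
        rw [prod_pow _ c hc, c1, ENNReal.rpow_one, mul_comm,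
          ← Finset.prod_filter_mul_prod_filter_not Finset.univ fun j => i ∈ τ j]
        congr 1
        · exact Finset.prod_congr rfl fun j hj => by rw [if_pos (Finset.mem_filter.1 hj).2]
        · refine Finset.prod_congr rfl fun j hj => ?_
          have := (Finset.mem_filter.1 hj).2
          rw [if_neg this, Finset.erase_eq_of_notMem this]
    refine le_of_eq_of_le ?_ this
    simp only [lintegral_const_mul _ (mF _), ENNReal.mul_rpow_of_nonneg _ _ (hc _).le,
      Finset.prod_mul_distrib]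
    rw [prod_pow _ c hc, c1, ENNReal.rpow_one, mul_comm]
    congr 1
    exact Finset.prod_congr rfl fun j hj => by
      rw [lmarginal_erase _ (hf j) (Finset.mem_filter.1 hj).2]

end Pool.Agent.H.MP_3c9300_gt
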