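import Pool.Agent.H.MP_3c9300_gt.A

open Set MeasureTheory Filter Topology Pointwise Function
open scoped ENNReal

namespace Pool.Agent.H.MP_3c9300_gt

lemma bbl (U V W : ℝ → ℝ≥0∞) (hU : Measurable U) (hV : Measurable V) (hW : Measurable W)
    (fU : ⨆ x, U x ≠ ⊤) (fV : ⨆ x, V x ≠ ⊤) (l m : ℝ) (hl : 0 < l) (hm : 0 < m)
    (H : ∀ x y a b : ℝ, 0 < a → 0 < b → ENNReal.ofReal a ≤ U x →
      ENNReal.ofReal b ≤ V y → ENNReal.ofReal (l / a + m / b)⁻¹ ≤ W (l * x + m * y)) :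
    min (∫⁻ x, U x) (∫⁻ x, V x) ≤ ∫⁻ x, W x := by
  by_cases u0 : ⨆ x, U x = 0
  · simp [ENNReal.iSup_eq_zero.1 u0]
  by_cases v0 : ⨆ x, V x = 0
  · simp [ENNReal.iSup_eq_zero.1 v0]
  obtain ⟨A, A0, hA⟩ : ∃ A : ℝ, 0 < A ∧ ⨆ x, U x = ENNReal.ofReal A :=
    ⟨_, ENNReal.toReal_pos u0 fU, (ENNReal.ofReal_toReal fU).symm⟩
  obtain ⟨B, B0, hB⟩ : ∃ A : ℝ, 0 < A ∧ ⨆ x, V x = ENNReal.ofReal A :=
    ⟨_, ENNReal.toReal_pos v0 fV, (ENNReal.ofReal_toReal fV).symm⟩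
  have k0 : 0 < l / A + m / B := by positivity
  have one : ∀ A : ℝ, 0 < A → ENNReal.ofReal A⁻¹ * ENNReal.ofReal A = 1 := fun A A0 => by
    rw [← ENNReal.ofReal_mul (by positivity), inv_mul_cancel₀ A0.ne', ENNReal.ofReal_one]
  have := core (J := Fin 2) Finset.univ Finset.univ_nonempty ![l, m]
    (by intro j; fin_cases j <;> simpa)
    ![fun x => ENNReal.ofReal A⁻¹ * U x, fun x => ENNReal.ofReal B⁻¹ * V x]
    (by intro j; fin_cases j <;> simp only [Fin.zero_eta, Fin.mk_one, Matrix.cons_val_zero,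
      Matrix.cons_val_one] <;> fun_prop)
    (by
      intro j _
      fin_cases j
      · simp only [Fin.zero_eta, Matrix.cons_val_zero]; rw [← ENNReal.mul_iSup, hA, one A A0]
      · simp only [Fin.mk_one, Matrix.cons_val_one, Matrix.cons_val_zero]
        rw [← ENNReal.mul_iSup, hB, one B B0])
    (fun x => ENNReal.ofReal (l / A + m / B) * W x) (by fun_prop) fun t τ hτ => by
      have h1 := hτ 0 (Finset.mem_univ _)
      have h2 := hτ 1 (Finset.mem_univ _)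
      simp only [Matrix.cons_val_zero, Matrix.cons_val_one, Fin.sum_univ_two] at h1 h2 ⊢
      rcases eq_or_ne τ 0 with rfl | t0
      · exact zero_le
      have t1 : τ ≠ ⊤ := ne_top_of_le_ne_top (ENNReal.mul_ne_top (by simp)
        (ne_top_of_le_ne_top fU (le_iSup U _))) h1
      obtain ⟨s, s0, rfl⟩ : ∃ s : ℝ, 0 < s ∧ τ = ENNReal.ofReal s :=
        ⟨_, ENNReal.toReal_pos t0 t1, (ENNReal.ofReal_toReal t1).symm⟩
      have up : ∀ (A : ℝ) (u : ℝ≥0∞), 0 < A → ENNReal.ofReal s ≤ ENNReal.ofReal A⁻¹ * u →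
          ENNReal.ofReal (A * s) ≤ u := fun A u A0 h => by
        rw [ENNReal.ofReal_mul A0.le]
        refine (mul_le_mul_right h _).trans_eq ?_
        rw [← mul_assoc, mul_comm (ENNReal.ofReal A), one A A0, one_mul]
      refine le_trans ?_ (mul_le_mul_right (H _ _ _ _ (mul_pos A0 s0) (mul_pos B0 s0)
        (up _ _ A0 h1) (up _ _ B0 h2)) _)
      rw [← ENNReal.ofReal_mul k0.le]
      apply ENNReal.ofReal_le_ofReal
      apply le_of_eq
      field_simp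
  simp only [Matrix.cons_val_zero, Matrix.cons_val_one, Fin.sum_univ_two,
    lintegral_const_mul _ hU, lintegral_const_mul _ hV, lintegral_const_mul _ hW] at this
  refine (ENNReal.mul_le_mul_iff_right (a := ENNReal.ofReal (l / A + m / B))
    (by simpa using k0) (by simp)).1 (le_trans ?_ this)
  rw [ENNReal.ofReal_add (by positivity) (by positivity), add_mul, ← mul_assoc, ← mul_assoc,
    ← ENNReal.ofReal_mul hl.le, ← ENNReal.ofReal_mul hm.le, div_eq_mul_inv, div_eq_mul_inv]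
  gcongr
  · exact min_le_left _ _
  · exact min_le_right _ _

noncomputable def w (p : ℕ) (ρ : ℝ) : ℝ≥0∞ := ENNReal.ofReal (ρ⁻¹ ^ (p + 1))

lemma mw (p : ℕ) : Measurable (w p) := by unfold w; fun_prop

lemma wint (p : ℕ) (hp : 1 ≤ p) (a : ℝ) (ha : 0 < a) :
    ∫⁻ ρ in Ioi a, w p ρ = ENNReal.ofReal (a⁻¹ ^ p / p) := by
  have p0 : (0 : ℝ) < p := by exact_mod_cast hp
  have e : ∀ ρ : ℝ, 0 < ρ → ∀ k : ℕ, ρ⁻¹ ^ k = ρ ^ (-(k : ℝ)) := fun ρ h k => by
    rw [Real.rpow_neg h.le, Real.rpow_natCast, inv_pow]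
  have hlt : -((p + 1 : ℕ) : ℝ) < -1 := by push_cast; linarith
  rw [setLIntegral_congr_fun measurableSet_Ioi
    (g := fun ρ => ENNReal.ofReal (ρ ^ (-((p + 1 : ℕ) : ℝ)))) fun ρ h => by
      simp only [w]; rw [e ρ (ha.trans h)],
    ← ofReal_integral_eq_lintegral_ofReal (integrableOn_Ioi_rpow_of_lt hlt ha)
      (ae_restrict_of_forall_mem measurableSet_Ioi fun ρ h => Real.rpow_nonneg (ha.trans h).le _),
    integral_Ioi_rpow_of_lt hlt ha, e a ha]
  congr 1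
  push_cast
  rw [show -((p : ℝ) + 1) + 1 = -p by ring, neg_div_neg_eq]

lemma moment (u : ℝ → ℝ≥0∞) (hu : Measurable u) (u1 : ∀ ρ, u ρ ≤ 1) (p d : ℕ) (hp : 1 ≤ p)
    (hd : p ≤ d) (a : ℝ) (ha : 0 < a)
    (H : ∫⁻ ρ in Ioi 0, u ρ * w d ρ ≤ ENNReal.ofReal (a⁻¹ ^ d / d)) :
    ∫⁻ ρ in Ioi 0, u ρ * w p ρ ≤ ENNReal.ofReal (a⁻¹ ^ p / p) := by
  obtain ⟨k, rfl⟩ := Nat.exists_eq_add_of_le hd
  have ind : ∀ q, 1 ≤ q → ∫⁻ ρ in Ioi 0, (Ioi a).indicator (w q) ρ =
      ENNReal.ofReal (a⁻¹ ^ q / q) := fun q hq => by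
    rw [lintegral_indicator measurableSet_Ioi, Measure.restrict_restrict measurableSet_Ioi,
      inter_eq_left.2 (Ioi_subset_Ioi ha.le), wint q hq a ha]
  have key : ∫⁻ ρ in Ioi 0, (u ρ * w p ρ + ENNReal.ofReal (a ^ k) * (Ioi a).indicator (w (p + k)) ρ)
      ≤ ∫⁻ ρ in Ioi 0, ((Ioi a).indicator (w p) ρ +
        ENNReal.ofReal (a ^ k) * (u ρ * w (p + k) ρ)) := by
    refine setLIntegral_mono' measurableSet_Ioi fun ρ h => ?_
    have r0 : 0 < ρ := h
    obtain ⟨v, v0, hv⟩ : ∃ v : ℝ, 0 ≤ v ∧ u ρ = ENNReal.ofReal v := ⟨_, ENNReal.toReal_nonneg,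
      (ENNReal.ofReal_toReal (ne_top_of_le_ne_top (by simp) (u1 ρ))).symm⟩
    have v1 : v ≤ 1 := by simpa [hv] using u1 ρ
    have e : a ^ k * ρ⁻¹ ^ (p + k + 1) = (a / ρ) ^ k * ρ⁻¹ ^ (p + 1) := by ring
    have q0 : 0 < ρ⁻¹ ^ (p + 1) := by positivity
    have c0 : 0 < (a / ρ) ^ k := by positivity
    by_cases h2 : ρ ∈ Ioi a
    · have c : (a / ρ) ^ k ≤ 1 := pow_le_one₀ (by positivity) ((div_le_one r0).2 (le_of_lt h2))
      simp only [indicator_of_mem h2, w, hv]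
      rw [mul_left_comm, ← ENNReal.ofReal_mul (p := a ^ k) (by positivity), e,
        ← ENNReal.ofReal_mul v0, ← ENNReal.ofReal_mul v0, ← ENNReal.ofReal_add (by positivity)
        (by positivity), ← ENNReal.ofReal_add (by positivity) (by positivity)]
      apply ENNReal.ofReal_le_ofReal
      nlinarith [mul_nonneg (mul_nonneg (sub_nonneg.2 v1) (sub_nonneg.2 c)) q0.le]
    · have c : 1 ≤ (a / ρ) ^ k := one_le_pow₀ ((one_le_div r0).2 (not_lt.1 h2))
      simp only [indicator_of_notMem h2, w, hv, mul_zero, add_zero, zero_add]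
      rw [mul_left_comm, ← ENNReal.ofReal_mul (p := a ^ k) (by positivity), e]
      gcongr
      nlinarith
  rw [lintegral_add_left (hu.fun_mul (mw p)), lintegral_add_left ((mw p).indicator measurableSet_Ioi),
    lintegral_const_mul _ ((mw _).indicator measurableSet_Ioi),
    lintegral_const_mul _ (hu.fun_mul (mw _)), ind p hp, ind _ (by omega)] at key
  exact (ENNReal.add_le_add_iff_right (ENNReal.mul_ne_top (by simp) (by simp))).1
    (key.trans (add_le_add le_rfl (mul_le_mul_right H _)))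

lemma scale (G : ℝ → ℝ≥0∞) (t : ℝ) (ht : 0 < t) :
    ∫⁻ ρ in Ioi 0, G ρ = ∫⁻ r in Ioi 0, ENNReal.ofReal t * G (t * r) := by
  have := lintegral_image_eq_lintegral_abs_deriv_mul (s := Ioi 0) (f := fun r => t * r)
    (f' := fun _ => t) measurableSet_Ioi
    (fun x _ => by simpa using ((hasDerivAt_id x).const_mul t).hasDerivWithinAt)
    (mul_right_injective₀ ht.ne').injOn G
  rwa [abs_of_pos ht, image_mul_left_Ioi ht, mul_zero] at this

lemma gam (p : ℕ) (hp : 1 ≤ p) (N : ℝ) (hN : 0 < N) :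
    ∫⁻ ρ in Ioi 0, ENNReal.ofReal (Real.exp (-(ρ * N))) * ENNReal.ofReal ((ρ * N) ^ p) *
      ENNReal.ofReal ρ⁻¹ = (p - 1).factorial := by
  obtain ⟨k, rfl⟩ := Nat.exists_eq_add_of_le' hp
  have a := Real.integral_rpow_mul_exp_neg_mul_Ioi (a := (k : ℝ) + 1) (by positivity) hN
  rw [Real.Gamma_nat_eq_factorial] at a
  have b : IntegrableOn (fun t : ℝ => t ^ ((k : ℝ) + 1 - 1) * Real.exp (-(N * t))) (Ioi 0) :=
    .of_integral_ne_zero (by rw [a]; positivity)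
  rw [setLIntegral_congr_fun measurableSet_Ioi (g := fun t => ENNReal.ofReal
    (N ^ (k + 1) * (t ^ ((k : ℝ) + 1 - 1) * Real.exp (-(N * t))))) fun ρ h => by
      have r0 : 0 < ρ := h
      simp only
      rw [← ENNReal.ofReal_mul (by positivity), ← ENNReal.ofReal_mul (by positivity),
        add_sub_cancel_right, Real.rpow_natCast, mul_comm N ρ]
      congr 1
      field_simp
      ring,
    ← ofReal_integral_eq_lintegral_ofReal (b.const_mul _)
      (ae_restrict_of_forall_mem measurableSet_Ioi fun ρ h => by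
        have r0 : 0 < ρ := h
        positivity), integral_const_mul, a, ← Nat.cast_succ, Real.rpow_natCast]
  rw [← mul_assoc, ← mul_pow, mul_one_div_cancel hN.ne']
  simp

lemma polar {V : Type*} [NormedAddCommGroup V] [NormedSpace ℝ V] [MeasurableSpace V]
    [BorelSpace V] [FiniteDimensional ℝ V] (μ : Measure V) [μ.IsAddHaarMeasure]
    (φ ψ : V → ℝ≥0∞) (hφ : Measurable φ) (hψ : Measurable ψ) :
    ∫⁻ x, φ x * (∫⁻ ρ in Ioi (0 : ℝ), ψ (ρ • x) * ENNReal.ofReal ρ⁻¹) ∂μ =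
      ∫⁻ y, ψ y * (∫⁻ ρ in Ioi (0 : ℝ), φ (ρ⁻¹ • y) * w (Module.finrank ℝ V) ρ) ∂μ := by
  have mw' := mw (Module.finrank ℝ V)
  have e1 : ∀ x, φ x * (∫⁻ ρ in Ioi (0 : ℝ), ψ (ρ • x) * ENNReal.ofReal ρ⁻¹) =
      ∫⁻ ρ in Ioi (0 : ℝ), φ x * (ψ (ρ • x) * ENNReal.ofReal ρ⁻¹) := fun x =>
    (lintegral_const_mul _ (by fun_prop)).symm
  have e2 : ∀ y, ψ y * (∫⁻ ρ in Ioi (0 : ℝ), φ (ρ⁻¹ • y) * w (Module.finrank ℝ V) ρ) =
      ∫⁻ ρ in Ioi (0 : ℝ), ψ y * (φ (ρ⁻¹ • y) * w (Module.finrank ℝ V) ρ) := fun x =>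
    (lintegral_const_mul _ (by fun_prop)).symm
  simp only [e1, e2]
  rw [lintegral_lintegral_swap (by fun_prop), lintegral_lintegral_swap (μ := μ) (by fun_prop)]
  refine setLIntegral_congr_fun measurableSet_Ioi fun ρ h => ?_
  have r0 : 0 < ρ := h
  have a := lintegral_map (μ := μ) (f := fun y => φ (ρ⁻¹ • y) * (ψ y * ENNReal.ofReal ρ⁻¹))
    (g := fun x => ρ • x) (by fun_prop) (by fun_prop)
  rw [Measure.map_addHaar_smul μ r0.ne', lintegral_smul_measure] at a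
  simp only [inv_smul_smul₀ r0.ne'] at a
  rw [← a, smul_eq_mul, ← lintegral_const_mul _ (by fun_prop)]
  refine lintegral_congr fun y => ?_
  rw [w, pow_succ, ENNReal.ofReal_mul (by positivity), abs_of_pos (by positivity), inv_pow]
  ring

end Pool.Agent.H.MP_3c9300_gt
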