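import Pool.Agent.H.MP_3c9300_gt.B

open Set MeasureTheory Filter Topology Pointwise Function
open scoped ENNReal

namespace Pool.Agent.H.MP_3c9300_gt

variable {ι : Type*} [Fintype ι]

structure Good (f : (ι → ℝ) → ℝ≥0∞) (σ : Finset ι) (R : ℝ) : Prop where
  meas : Measurable f
  le1 : ∀ x, f x ≤ 1
  lc : ∀ x y (α β : ℝ), 0 < α → 0 < β → α + β = 1 → f x ^ α * f y ^ β ≤ f (α • x + β • y)
  R0 : 0 < R
  supp : ∀ x, f x ≠ 0 → ∀ i ∈ σ, |x i| ≤ R
  ne : σ.Nonempty

noncomputable def Ip (f : (ι → ℝ) → ℝ≥0∞) (p : ℕ) (x : ι → ℝ) : ℝ≥0∞ :=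
  ∫⁻ ρ in Ioi (0 : ℝ), f (ρ⁻¹ • x) * w p ρ

lemma Ip_smul (f : (ι → ℝ) → ℝ≥0∞) (p : ℕ) (x : ι → ℝ) (t : ℝ) (ht : 0 < t) :
    Ip f p (t • x) = ENNReal.ofReal (t⁻¹ ^ p) * Ip f p x := by
  unfold Ip
  rw [scale _ t ht, ← lintegral_const_mul' _ _ (by simp)]
  refine setLIntegral_congr_fun measurableSet_Ioi fun r h => ?_
  have r0 : 0 < r := h
  have e : (t * r)⁻¹ • t • x = r⁻¹ • x := by rw [smul_smul]; congr 1; field_simp
  simp only [e, w]
  rw [mul_left_comm, mul_left_comm (ENNReal.ofReal _), ← ENNReal.ofReal_mul ht.le,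
    ← ENNReal.ofReal_mul (by positivity)]
  congr 2
  linear_combination (t⁻¹ ^ p * r⁻¹ ^ (p + 1)) * mul_inv_cancel₀ ht.ne'

variable {f : (ι → ℝ) → ℝ≥0∞} {σ : Finset ι} {R : ℝ}

lemma Good.cut (G : Good f σ R) {x : ι → ℝ} {i : ι} (hi : i ∈ σ) {ρ : ℝ}
    (r0 : 0 < ρ) (h : f (ρ⁻¹ • x) ≠ 0) : |x i| / (2 * R) < ρ := by
  have := G.supp _ h i hi
  rw [Pi.smul_apply, smul_eq_mul, abs_mul, abs_of_pos (by positivity), inv_mul_le_iff₀ r0] at this
  have R0 := G.R0
  rw [div_lt_iff₀ (by positivity)]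
  nlinarith

lemma Good.fin (G : Good f σ R) {x : ι → ℝ} {i : ι} (hi : i ∈ σ) (hx : x i ≠ 0) (p : ℕ)
    (hp : 1 ≤ p) : Ip f p x ≠ ⊤ := by
  have R0 := G.R0
  have a0 : 0 < |x i| / (2 * R) := by positivity
  refine ne_top_of_le_ne_top (b := ∫⁻ ρ, (Ioi (|x i| / (2 * R))).indicator (w p) ρ) ?_ ?_
  · rw [lintegral_indicator measurableSet_Ioi, wint p hp _ a0]; simp
  · refine le_trans (setLIntegral_mono' measurableSet_Ioi fun ρ h => ?_)
      (setLIntegral_le_lintegral (Ioi 0) _)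
    by_cases h0 : f (ρ⁻¹ • x) = 0
    · simp [h0]
    · rw [indicator_of_mem (mem_Ioi.2 (G.cut hi h h0))]
      exact mul_le_of_le_one_left' (G.le1 _)

lemma logineq (d : ℕ) (l m a b r s : ℝ) (hl : 0 < l) (hm : 0 < m) (hlm : l + m = 1) (ha : 0 < a)
    (hb : 0 < b) (hr : 0 < r) (hs : 0 < s) :
    (l / a + m / b)⁻¹ ≤ (a * r ^ (d + 1)) ^ (l * r / (l * r + m * s)) *
      (b * s ^ (d + 1)) ^ (m * s / (l * r + m * s)) * (l * r + m * s)⁻¹ ^ (d + 1) := by
  obtain ⟨ρ, hρ⟩ : ∃ ρ, ρ = l * r + m * s := ⟨_, rfl⟩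
  have r0 : 0 < ρ := by rw [hρ]; positivity
  rw [← hρ]
  obtain ⟨α, hα⟩ : ∃ α, α = l * r / ρ := ⟨_, rfl⟩
  obtain ⟨β, hβ⟩ : ∃ β, β = m * s / ρ := ⟨_, rfl⟩
  have a0 : 0 < α := by rw [hα]; positivity
  have b0 : 0 < β := by rw [hβ]; positivity
  have ab : α + β = 1 := by rw [hα, hβ, ← add_div, ← hρ, div_self r0.ne']
  rw [← hα, ← hβ, ← Real.log_le_log_iff (by positivity) (by positivity)]
  have c := strictConcaveOn_log_Ioi.concaveOn.2
  have c1 := c (x := ρ / (a * r)) (y := ρ / (b * s)) (mem_Ioi.2 (by positivity))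
    (mem_Ioi.2 (by positivity)) a0.le b0.le ab
  have c2 := c (x := ρ / r) (y := ρ / s) (mem_Ioi.2 (by positivity))
    (mem_Ioi.2 (by positivity)) a0.le b0.le ab
  have e1 : α • (ρ / (a * r)) + β • (ρ / (b * s)) = l / a + m / b := by
    rw [hα, hβ, smul_eq_mul, smul_eq_mul]; field_simp
  have e2 : α • (ρ / r) + β • (ρ / s) = 1 := by
    rw [hα, hβ, smul_eq_mul, smul_eq_mul, ← hlm]; field_simp
  rw [e1] at c1
  rw [e2, Real.log_one] at c2
  simp (disch := positivity) only [Real.log_mul, Real.log_div, Real.log_inv, Real.log_rpow,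
    Real.log_pow, smul_eq_mul] at c1 c2 ⊢
  have d0 : (0 : ℝ) ≤ d := Nat.cast_nonneg d
  have := mul_le_mul_of_nonneg_left c2 d0
  have e : β = 1 - α := by linarith
  push_cast
  rw [e] at c1 c2 this ⊢
  nlinarith

lemma Good.qc (G : Good f σ R) (d : ℕ) {x y : ι → ℝ} {i j : ι} (hi : i ∈ σ) (hx : x i ≠ 0)
    (hj : j ∈ σ) (hy : y j ≠ 0) (l m : ℝ) (hl : 0 < l) (hm : 0 < m) (hlm : l + m = 1) :
    min (Ip f d x) (Ip f d y) ≤ Ip f d (l • x + m • y) := by
  have hf := G.meas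
  have mw' := mw d
  have R0 := G.R0
  have ms : ∀ x : ι → ℝ, Measurable ((Ioi (0 : ℝ)).indicator fun ρ => f (ρ⁻¹ • x) * w d ρ) :=
    fun x => Measurable.indicator (by fun_prop) measurableSet_Ioi
  have fn : ∀ (x : ι → ℝ) (i : ι), i ∈ σ → x i ≠ 0 →
      ⨆ ρ, (Ioi (0 : ℝ)).indicator (fun ρ => f (ρ⁻¹ • x) * w d ρ) ρ ≠ ⊤ := by
    intro x i hi hx
    refine ne_top_of_le_ne_top (b := w d (|x i| / (2 * R))) (by simp [w]) (iSup_le fun ρ => ?_)
    by_cases h : ρ ∈ Ioi (0 : ℝ)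
    · rw [indicator_of_mem h]
      by_cases h0 : f (ρ⁻¹ • x) = 0
      · simp [h0]
      · refine (mul_le_of_le_one_left' (G.le1 _)).trans (ENNReal.ofReal_le_ofReal ?_)
        have r0 : 0 < ρ := h
        exact pow_le_pow_left₀ (by positivity) (inv_anti₀ (by positivity) (G.cut hi h h0).le) _
    · simp [h]
  simp only [Ip, ← lintegral_indicator measurableSet_Ioi]
  refine bbl _ _ _ (ms x) (ms y) (ms _) (fn x i hi hx) (fn y j hj hy) l m hl hm
    fun r s a b ha hb h1 h2 => ?_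
  have pos : ∀ (x : ι → ℝ) (r a : ℝ), 0 < a → ENNReal.ofReal a ≤
      (Ioi (0 : ℝ)).indicator (fun ρ => f (ρ⁻¹ • x) * w d ρ) r →
      0 < r ∧ ENNReal.ofReal (a * r ^ (d + 1)) ≤ f (r⁻¹ • x) := by
    intro x r a ha h
    have r0 : r ∈ Ioi (0 : ℝ) := by
      by_contra hn
      rw [indicator_of_notMem hn] at h
      exact absurd (by simpa using h) (not_le.2 ha)
    have r1 : 0 < r := r0
    refine ⟨r0, ?_⟩
    rw [indicator_of_mem r0] at h
    rw [ENNReal.ofReal_mul ha.le]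
    refine (mul_le_mul_left h _).trans_eq ?_
    rw [mul_assoc, w, ← ENNReal.ofReal_mul (by positivity), ← mul_pow, inv_mul_cancel₀ r1.ne']
    simp
  obtain ⟨r0, h1⟩ := pos x r a ha h1
  obtain ⟨s0, h2⟩ := pos y s b hb h2
  have p0 : 0 < l * r + m * s := by positivity
  rw [indicator_of_mem (mem_Ioi.2 p0)]
  have := G.lc (r⁻¹ • x) (s⁻¹ • y) (l * r / (l * r + m * s)) (m * s / (l * r + m * s))
    (by positivity) (by positivity) (by field_simp)
  have e : (l * r / (l * r + m * s)) • r⁻¹ • x + (m * s / (l * r + m * s)) • s⁻¹ • y =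
      (l * r + m * s)⁻¹ • (l • x + m • y) := by
    simp only [smul_add, smul_smul]
    congr 2 <;> field_simp
  rw [e] at this
  refine (ENNReal.ofReal_le_ofReal (logineq d l m a b r s hl hm hlm ha hb r0 s0)).trans ?_
  rw [ENNReal.ofReal_mul (by positivity), ENNReal.ofReal_mul (by positivity),
    ← ENNReal.ofReal_rpow_of_pos (by positivity), ← ENNReal.ofReal_rpow_of_pos (by positivity)]
  refine mul_le_mul_left (le_trans ?_ this) _
  gcongr

open Classical in
noncomputable def g (f : (ι → ℝ) → ℝ≥0∞) (d : ℕ) (x : ι → ℝ) : ℝ≥0∞ :=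
  if x = 0 then ⊤ else d * Ip f d x

noncomputable def N (f : (ι → ℝ) → ℝ≥0∞) (d : ℕ) (x : ι → ℝ) : ℝ :=
  (g f d x).toReal ^ (-(d : ℝ)⁻¹)

noncomputable def h (f : (ι → ℝ) → ℝ≥0∞) (d : ℕ) (x : ι → ℝ) : ℝ≥0∞ :=
  if g f d x = 0 then 0 else ENNReal.ofReal (Real.exp (-N f d x))

lemma mg (hf : Measurable f) (d : ℕ) : Measurable (g f d) := by
  have mw' := mw d
  refine Measurable.ite (measurableSet_singleton 0) measurable_const (Measurable.const_mul ?_ _)
  exact Measurable.lintegral_prod_right' (f := fun p : (ι → ℝ) × ℝ => f (p.2⁻¹ • p.1) * w d p.2)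
    (by fun_prop)

lemma mN (hf : Measurable f) (d : ℕ) : Measurable (N f d) :=
  (mg hf d).ennreal_toReal.pow_const _

lemma mh (hf : Measurable f) (d : ℕ) : Measurable (h f d) := by
  have := mN hf d
  exact Measurable.ite (mg hf d (measurableSet_singleton 0)) measurable_const (by fun_prop)

lemma g_smul (d : ℕ) (x : ι → ℝ) (t : ℝ) (ht : 0 < t) :
    g f d (t • x) = ENNReal.ofReal (t⁻¹ ^ d) * g f d x := by
  unfold g
  by_cases hx : x = 0
  · rw [if_pos hx, if_pos (by simp [hx]), ENNReal.mul_top (by simpa using by positivity)]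
  · rw [if_neg hx, if_neg (smul_ne_zero ht.ne' hx), Ip_smul _ _ _ _ ht, mul_left_comm]

def Sup (σ : Finset ι) (x : ι → ℝ) : Prop := ∀ i ∉ σ, x i = 0

omit [Fintype ι] in
lemma Sup.ex {x : ι → ℝ} (hs : Sup σ x) (hx : x ≠ 0) : ∃ i ∈ σ, x i ≠ 0 := by
  classical
  by_contra hn
  push Not at hn
  exact hx (funext fun i => if h : i ∈ σ then hn i h else hs i h)

lemma N_nn (d : ℕ) (x : ι → ℝ) : 0 ≤ N f d x := Real.rpow_nonneg ENNReal.toReal_nonneg _

lemma Good.gN (G : Good f σ R) {x : ι → ℝ} (hs : Sup σ x) (hx : x ≠ 0) (hg : g f σ.card x ≠ 0) :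
    0 < N f σ.card x ∧ g f σ.card x = ENNReal.ofReal ((N f σ.card x)⁻¹ ^ σ.card) := by
  obtain ⟨i, hi, hxi⟩ := hs.ex hx
  have d0 := G.ne.card_pos
  have fn : g f σ.card x ≠ ⊤ := by
    rw [g, if_neg hx]; exact ENNReal.mul_ne_top (by simp) (G.fin hi hxi _ d0)
  have p := ENNReal.toReal_pos hg fn
  refine ⟨Real.rpow_pos_of_pos p _, ?_⟩
  rw [N, Real.rpow_neg p.le, inv_inv, Real.rpow_inv_natCast_pow p.le d0.ne',
    ENNReal.ofReal_toReal fn]

lemma Good.mem (G : Good f σ R) {x : ι → ℝ} (hs : Sup σ x) (ν : ℝ) (hν : 0 < ν) :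
    1 ≤ g f σ.card (ν⁻¹ • x) ↔ g f σ.card x ≠ 0 ∧ N f σ.card x ≤ ν := by
  have d0 := G.ne.card_pos
  by_cases hx : x = 0
  · have : -(σ.card : ℝ)⁻¹ ≠ 0 := neg_ne_zero.2 (by positivity)
    simp [hx, g, N, Real.zero_rpow this, hν.le]
  rw [g_smul _ _ _ (by positivity), inv_inv]
  by_cases hg : g f σ.card x = 0
  · simp [hg]
  obtain ⟨n0, e⟩ := G.gN hs hx hg
  rw [and_iff_right hg, e, ← ENNReal.ofReal_mul (by positivity), ← mul_pow, ENNReal.one_le_ofReal,
    one_le_pow_iff_of_nonneg (by positivity) d0.ne', ← div_eq_mul_inv, one_le_div n0]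

lemma Good.conv (G : Good f σ R) : Convex ℝ {x | Sup σ x ∧ 1 ≤ g f σ.card x} := by
  have sc : ∀ (y : ι → ℝ) (m : ℝ), 0 < m → m ≤ 1 → 1 ≤ g f σ.card y → 1 ≤ g f σ.card (m • y) := by
    intro y m m0 m1 hy
    rw [g_smul _ _ _ m0]
    exact one_le_mul (ENNReal.one_le_ofReal.2 (one_le_pow₀ ((one_le_inv₀ m0).2 m1))) hy
  rw [convex_iff_forall_pos]
  rintro x ⟨x1, x2⟩ y ⟨y1, y2⟩ l m hl hm hlm
  refine ⟨fun i hi => by simp [x1 i hi, y1 i hi], ?_⟩
  by_cases hx : x = 0
  · simpa [hx] using sc y m hm (by linarith) y2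
  by_cases hy : y = 0
  · simpa [hy] using sc x l hl (by linarith) x2
  obtain ⟨i, hi, hxi⟩ := x1.ex hx
  obtain ⟨j, hj, hyj⟩ := y1.ex hy
  have := G.qc σ.card hi hxi hj hyj l m hl hm hlm
  unfold g at *
  rw [if_neg hx] at x2
  rw [if_neg hy] at y2
  split_ifs
  · exact le_top
  · refine le_trans ?_ (mul_le_mul_right this _)
    rcases min_choice (Ip f σ.card x) (Ip f σ.card y) with h | h <;> rwa [h]

lemma Good.sub (G : Good f σ R) {J : Type*} [Fintype J] [Nonempty J] (c : ℝ) (hc : 0 < c)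
    (x : J → ι → ℝ) (hs : ∀ j, Sup σ (x j)) :
    ∏ j, h f σ.card (x j) ^ c ≤ h f σ.card (∑ j, c • x j) := by
  by_cases h0 : ∃ j, g f σ.card (x j) = 0
  · obtain ⟨j, hj⟩ := h0
    rw [Finset.prod_eq_zero (Finset.mem_univ j) (by simp [h, hj, hc])]
    exact zero_le
  push Not at h0
  have sz : Sup σ (∑ j, c • x j) := fun i hi => by simp [Finset.sum_apply, hs _ i hi]
  have key : ∀ ε : ℝ, 0 < ε → g f σ.card (∑ j, c • x j) ≠ 0 ∧
      N f σ.card (∑ j, c • x j) ≤ ∑ j, c * (N f σ.card (x j) + ε) := by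
    intro ε hε
    have n0 : ∀ j, 0 < N f σ.card (x j) + ε := fun j => by linarith [N_nn (f := f) σ.card (x j)]
    have S0 : 0 < ∑ j, c * (N f σ.card (x j) + ε) :=
      Finset.sum_pos (fun j _ => mul_pos hc (n0 j)) Finset.univ_nonempty
    rw [← G.mem sz _ S0]
    have := G.conv.sum_mem (t := Finset.univ)
      (w := fun j => c * (N f σ.card (x j) + ε) / ∑ j, c * (N f σ.card (x j) + ε))
      (z := fun j => (N f σ.card (x j) + ε)⁻¹ • x j)
      (fun j _ => (div_pos (mul_pos hc (n0 j)) S0).le) (by rw [← Finset.sum_div, div_self S0.ne'])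
      fun j _ => ⟨fun i hi => by simp [hs j i hi],
        (G.mem (hs j) _ (n0 j)).2 ⟨h0 j, by linarith⟩⟩
    convert this.2 using 2
    rw [Finset.smul_sum]
    refine Finset.sum_congr rfl fun j _ => ?_
    rw [smul_smul, smul_smul]
    congr 1
    have := (n0 j).ne'
    field_simp
  have k2 : N f σ.card (∑ j, c • x j) ≤ ∑ j, c * N f σ.card (x j) := by
    apply le_of_forall_pos_le_add
    intro ε hε
    have J0 : (0 : ℝ) < Fintype.card J := by exact_mod_cast Fintype.card_pos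
    refine (key (ε / (c * Fintype.card J)) (by positivity)).2.trans_eq ?_
    simp only [mul_add, Finset.sum_add_distrib, Finset.sum_const, Finset.card_univ, nsmul_eq_mul]
    field_simp
  simp only [h, if_neg (h0 _), if_neg (key 1 one_pos).1]
  simp only [ENNReal.ofReal_rpow_of_pos (Real.exp_pos _), ← Real.exp_mul]
  rw [← ENNReal.ofReal_prod_of_nonneg fun _ _ => (Real.exp_pos _).le, ← Real.exp_sum]
  refine ENNReal.ofReal_le_ofReal (Real.exp_le_exp.2 ?_)
  simp only [mul_neg, Finset.sum_neg_distrib, mul_comm _ c]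
  linarith

variable [DecidableEq ι]

def E (τ : Finset ι) (y : τ → ℝ) : ι → ℝ := updateFinset 0 τ y

omit [Fintype ι] in
lemma E_smul (τ : Finset ι) (r : ℝ) (y : τ → ℝ) : E τ (r • y) = r • E τ y := by
  funext i
  by_cases h : i ∈ τ <;> simp [E, updateFinset, h]

omit [Fintype ι] in
lemma E_ne (τ : Finset ι) {y : τ → ℝ} (hy : y ≠ 0) : E τ y ≠ 0 := by
  intro h
  apply hy
  funext i
  simpa [E, updateFinset] using congrFun h i

omit [Fintype ι] in
lemma E_sup {τ : Finset ι} (h : τ ⊆ σ) (y : τ → ℝ) : Sup σ (E τ y) := fun i hi => by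
  simp [E, updateFinset, show i ∉ τ from fun h' => hi (h h')]

omit [Fintype ι] in
lemma mE (τ : Finset ι) : Measurable (E τ) := measurable_updateFinset

lemma Good.ray (G : Good f σ R) {x : ι → ℝ} (hs : Sup σ x) (hx : x ≠ 0)
    (hg : g f σ.card x ≠ 0) (p : ℕ) (hp : 1 ≤ p) :
    ∫⁻ ρ in Ioi (0 : ℝ), h f σ.card (ρ • x) * ENNReal.ofReal (N f σ.card (ρ • x) ^ p) *
      ENNReal.ofReal ρ⁻¹ = (p - 1).factorial := by
  obtain ⟨n0, e⟩ := G.gN hs hx hg
  rw [← gam p hp _ n0]
  refine setLIntegral_congr_fun measurableSet_Ioi fun ρ h0 => ?_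
  have r0 : 0 < ρ := h0
  have d0 := G.ne.card_pos
  have a : g f σ.card (ρ • x) = ENNReal.ofReal ((ρ * N f σ.card x)⁻¹ ^ σ.card) := by
    rw [g_smul _ _ _ r0, e, ← ENNReal.ofReal_mul (by positivity), ← mul_pow, mul_inv]
  have b : N f σ.card (ρ • x) = ρ * N f σ.card x := by
    rw [N, a, ENNReal.toReal_ofReal (by positivity), Real.rpow_neg (by positivity),
      Real.pow_rpow_inv_natCast (by positivity) d0.ne', inv_inv]
  have c : g f σ.card (ρ • x) ≠ 0 := by rw [a]; simpa using by positivity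
  simp only [h, if_neg c, b]

lemma ae_ne (τ : Finset ι) (ht : τ.Nonempty) : ∀ᵐ y : τ → ℝ, y ≠ 0 := by
  have : Nonempty τ := ht.to_subtype
  rw [ae_iff]; simp

lemma Good.up (G : Good f σ R) (τ : Finset ι) (h1 : τ ⊆ σ) :
    τ.card.factorial * lmarginal (fun _ => volume) τ f 0 ≤
      lmarginal (fun _ => volume) τ (h f σ.card) 0 := by
  rcases τ.eq_empty_or_nonempty with rfl | ht
  · have : -(σ.card : ℝ)⁻¹ ≠ 0 := neg_ne_zero.2 (by have := G.ne.card_pos; positivity)
    simpa [h, g, N, Real.zero_rpow this] using G.le1 0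
  have hp : 1 ≤ τ.card := ht.card_pos
  have p0 : (0 : ℝ) < τ.card := by exact_mod_cast hp
  have hf := G.meas
  have m1 := (mh hf σ.card).comp (mE τ)
  have m2 := (mN hf σ.card).comp (mE τ)
  have m3 := (mg hf σ.card).comp (mE τ)
  have := polar (volume : Measure (τ → ℝ)) (fun y => f (E τ y))
    (fun y => if g f σ.card (E τ y) = 0 then ⊤ else
      h f σ.card (E τ y) * ENNReal.ofReal (N f σ.card (E τ y) ^ τ.card)) (hf.comp (mE τ))
    (Measurable.ite (m3 (measurableSet_singleton 0)) measurable_const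
      (m1.mul (m2.pow_const _).ennreal_ofReal))
  rw [Module.finrank_fintype_fun_eq_card, Fintype.card_coe] at this
  change _ * ∫⁻ y, f (E τ y) ≤ ∫⁻ y, h f σ.card (E τ y)
  rw [← Nat.mul_factorial_pred (Nat.one_le_iff_ne_zero.1 hp), Nat.cast_mul, mul_assoc, ← lintegral_const_mul _
    (show Measurable fun y => f (E τ y) from hf.comp (mE τ))]
  refine le_trans (mul_le_mul_right ((lintegral_mono_ae ?_).trans this.le) _) ?_
  · filter_upwards [ae_ne τ ht] with y hy
    rw [mul_comm]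
    refine mul_le_mul_right ?_ _
    by_cases hg : g f σ.card (E τ y) = 0
    · rw [setLIntegral_congr_fun measurableSet_Ioi (g := fun _ => ⊤) fun ρ h0 => by
        have r0 : 0 < ρ := h0
        simp only [E_smul, g_smul _ _ _ r0, hg, mul_zero, if_true]
        exact ENNReal.top_mul (by simpa using r0)]
      simp
    · rw [← G.ray (E_sup h1 y) (E_ne τ hy) hg _ hp]
      refine (setLIntegral_congr_fun measurableSet_Ioi fun ρ h0 => ?_).le
      have r0 : 0 < ρ := h0
      have c : g f σ.card (ρ • E τ y) ≠ 0 := by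
        rw [g_smul _ _ _ r0]; exact mul_ne_zero (by simpa using by positivity) hg
      simp only [E_smul, if_neg c]
  · rw [← lintegral_const_mul' _ _ (by simp)]
    refine lintegral_mono_ae ?_
    filter_upwards [ae_ne τ ht] with y hy
    have d0 := G.ne.card_pos
    have d1 : (0 : ℝ) < σ.card := by exact_mod_cast d0
    have mo := moment (fun ρ => f (ρ⁻¹ • E τ y)) (by fun_prop) (fun _ => G.le1 _) _ _ hp
      (Finset.card_le_card h1)
    simp only [E_smul]
    by_cases hg : g f σ.card (E τ y) = 0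
    · have a : Ip f σ.card (E τ y) = 0 := by
        rw [g, if_neg (E_ne τ hy)] at hg
        exact (mul_eq_zero.1 hg).resolve_left (by simpa using d0.ne')
      have b : ∫⁻ ρ in Ioi (0 : ℝ), f (ρ⁻¹ • E τ y) * w τ.card ρ = 0 := by
        have mw1 := mw σ.card
        have mw2 := mw τ.card
        rw [Ip, setLIntegral_eq_zero_iff measurableSet_Ioi (by fun_prop)] at a
        rw [setLIntegral_eq_zero_iff measurableSet_Ioi (by fun_prop)]
        filter_upwards [a] with ρ h2 h0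
        have r0 : 0 < ρ := h0
        rw [(mul_eq_zero.1 (h2 h0)).resolve_right (by simpa [w] using by positivity), zero_mul]
      simp [b]
    · obtain ⟨n0, e⟩ := G.gN (E_sup h1 y) (E_ne τ hy) hg
      have a := mo _ n0 (by
        rw [g, if_neg (E_ne τ hy)] at e
        rw [ENNReal.ofReal_div_of_pos d1, ← e, ENNReal.ofReal_natCast, mul_comm,
          ENNReal.mul_div_cancel_right (by simpa using d0.ne') (by simp)]
        exact le_rfl)
      rw [if_neg hg, mul_assoc, mul_left_comm]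
      refine mul_le_of_le_one_right' ((mul_le_mul_right (mul_le_mul_right a _) _).trans_eq ?_)
      rw [← ENNReal.ofReal_natCast, ← ENNReal.ofReal_mul (by positivity),
        ← ENNReal.ofReal_mul (by positivity), ← ENNReal.ofReal_one, inv_pow]
      congr 1
      field_simp

lemma Good.down (G : Good f σ R) : lmarginal (fun _ => volume) σ (h f σ.card) 0 ≤
    σ.card.factorial * lmarginal (fun _ => volume) σ f 0 := by
  have hp : 1 ≤ σ.card := G.ne.card_pos
  have hf := G.meas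
  have m1 := (mh hf σ.card).comp (mE σ)
  have m2 := (mN hf σ.card).comp (mE σ)
  have := polar (volume : Measure (σ → ℝ)) (fun y => f (E σ y))
    (fun y => h f σ.card (E σ y) * ENNReal.ofReal (N f σ.card (E σ y) ^ σ.card)) (hf.comp (mE σ))
    (m1.mul (m2.pow_const _).ennreal_ofReal)
  rw [Module.finrank_fintype_fun_eq_card, Fintype.card_coe] at this
  change ∫⁻ y, h f σ.card (E σ y) ≤ _ * ∫⁻ y, f (E σ y)
  rw [← Nat.mul_factorial_pred (Nat.one_le_iff_ne_zero.1 hp), Nat.cast_mul, mul_assoc, ← lintegral_const_mul _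
    (show Measurable fun y => f (E σ y) from hf.comp (mE σ))]
  refine le_trans ?_ (mul_le_mul_right (this.ge.trans (lintegral_mono_ae ?_)) _)
  · rw [← lintegral_const_mul' _ _ (by simp)]
    refine lintegral_mono_ae ?_
    filter_upwards [ae_ne σ G.ne] with y hy
    simp only [E_smul]
    by_cases hg : g f σ.card (E σ y) = 0
    · simp [h, hg]
    · obtain ⟨n0, e⟩ := G.gN (E_sup le_rfl y) (E_ne σ hy) hg
      rw [g, if_neg (E_ne σ hy), Ip] at e
      rw [mul_assoc, mul_left_comm, mul_left_comm (σ.card : ℝ≥0∞), e,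
        ← ENNReal.ofReal_mul (by positivity), ← mul_pow, mul_inv_cancel₀ n0.ne']
      simp
  · filter_upwards [ae_ne σ G.ne] with y hy
    rw [mul_comm]
    refine mul_le_mul_left ?_ _
    simp only [E_smul]
    by_cases hg : g f σ.card (E σ y) = 0
    · rw [setLIntegral_congr_fun measurableSet_Ioi (g := fun _ => 0) fun ρ h0 => by
        simp [h, g_smul _ _ _ (show 0 < ρ from h0), hg]]
      simp
    · exact (G.ray (E_sup le_rfl y) (E_ne σ hy) hg _ hp).le

theorem Good.main (G : Good f σ R) {J : Type*} [Fintype J] (τ : J → Finset ι) (h1 : ∀ j, τ j ⊆ σ)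
    (k : ℕ) (hk : ∀ i ∈ σ, (Finset.univ.filter fun j => i ∈ τ j).card = k) :
    ∏ j, ((τ j).card.factorial * lmarginal (fun _ => volume) (τ j) f 0) ≤
      (σ.card.factorial * lmarginal (fun _ => volume) σ f 0) ^ k := by
  rcases Nat.eq_zero_or_pos k with rfl | k0
  · have : ∀ j, τ j = ∅ := fun j => Finset.eq_empty_of_forall_notMem fun i hi => by
      have := Finset.card_eq_zero.1 (hk i (h1 j hi))
      exact Finset.notMem_empty j (this ▸ Finset.mem_filter.2 ⟨Finset.mem_univ j, hi⟩)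
    simpa [this] using pow_le_one' (G.le1 0) _
  have k1 : (0 : ℝ) < k := by exact_mod_cast k0
  obtain ⟨i, hi⟩ := G.ne
  have : Nonempty J := ⟨(Finset.card_pos.1 (hk i hi ▸ k0)).choose⟩
  have := rbl (fun _ : J => (k : ℝ)⁻¹) (fun _ => by positivity) (fun _ => h f σ.card)
    (fun _ => mh G.meas _) (h f σ.card) (mh G.meas _) σ τ h1
    (fun i hi => by rw [Finset.sum_const, hk i hi, nsmul_eq_mul, mul_inv_cancel₀ k1.ne'])
    (fun _ => 0) 0 fun x z x1 z1 z2 => by
      have s : ∀ j, Sup σ (x j) := fun j i hi => x1 j i fun h' => hi (h1 j h')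
      convert G.sub _ (inv_pos.2 k1) x s using 2
      funext i
      rw [Finset.sum_apply]
      by_cases hi : i ∈ σ
      · rw [z2 i hi, Finset.sum_filter]
        refine Finset.sum_congr rfl fun j _ => ?_
        split_ifs with hj
        · rfl
        · simp [x1 j i hj]
      · simp [z1 i hi, s _ i hi]
  rw [ENNReal.prod_rpow_of_nonneg (by positivity), ENNReal.rpow_inv_le_iff k1,
    ENNReal.rpow_natCast] at this
  exact (Finset.prod_le_prod' fun j _ => G.up _ (h1 j)).trans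
    (this.trans (pow_le_pow_left' G.down _))

end Pool.Agent.H.MP_3c9300_gt
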